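import Mathlib

/-! # Lattice points in regions dilated with different scales, and residue classes
(project KE, helper714); adapted from the file KF/Lpc of helper721 -/

set_option autoImplicit false

namespace Pool.Agent.Y592.KE.LPC

open Filter Topology MeasureTheory

variable {ι : Type} [Fintype ι]

/-- the lattice points in a box with prescribed residues -/
def Bx (q : ℕ) (T : Set (ι → ZMod q)) (u : ι → ℝ) : Set (ι → ℤ) :=
  {z | (fun i => (z i : ZMod q)) ∈ T ∧ ∀ i, (z i : ℝ) ≤ u i ∧ u i < z i + q}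

theorem Bx_bijOn {q : ℕ} (hq : 0 < q) (T : Set (ι → ZMod q)) (u : ι → ℝ) :
    Set.BijOn (fun (z : ι → ℤ) i => (z i : ZMod q)) (Bx q T u) T := by
  refine ⟨fun z hz => hz.1, ?_, ?_⟩
  · rintro z ⟨-, hz⟩ w ⟨-, hw⟩ h
    funext i
    have h1 : ((z i : ZMod q)) = (w i : ZMod q) := congrFun h i
    rw [ZMod.intCast_eq_intCast_iff] at h1
    have h2 : (q : ℤ) ∣ z i - w i := h1.symm.dvd
    obtain ⟨a, b⟩ := hz i
    obtain ⟨c, d⟩ := hw i
    have e1 : (z i : ℝ) < w i + q := lt_of_le_of_lt a d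
    have e2 : (w i : ℝ) < z i + q := lt_of_le_of_lt c b
    have e1' : z i < w i + q := by exact_mod_cast e1
    have e2' : w i < z i + q := by exact_mod_cast e2
    have h3 : z i - w i = 0 := by
      apply Int.eq_zero_of_abs_lt_dvd h2
      rw [abs_lt]
      constructor <;> omega
    omega
  · intro t ht
    have : NeZero q := ⟨hq.ne'⟩
    have hex : ∀ i, ∃ z : ℤ, (z : ZMod q) = t i ∧ (z : ℝ) ≤ u i ∧ u i < z + q := by
      intro i
      refine ⟨⌊u i⌋ - (⌊u i⌋ - (t i).val) % q, ?_, ?_, ?_⟩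
      · have h1 : (((⌊u i⌋ - (t i).val) % q : ℤ) : ZMod q) = ((⌊u i⌋ - (t i).val : ℤ) : ZMod q) := by
          rw [ZMod.intCast_mod]
        push_cast [h1]
        rw [ZMod.natCast_zmod_val]
        ring
      · have h1 : 0 ≤ (⌊u i⌋ - ((t i).val : ℤ)) % q := Int.emod_nonneg _ (by exact_mod_cast hq.ne')
        have h2 : ((⌊u i⌋ - (⌊u i⌋ - (t i).val) % q : ℤ) : ℝ) ≤ (⌊u i⌋ : ℝ) := by
          exact_mod_cast (by omega : ⌊u i⌋ - (⌊u i⌋ - ((t i).val : ℤ)) % q ≤ ⌊u i⌋)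
        exact h2.trans (Int.floor_le _)
      · have h1 : (⌊u i⌋ - ((t i).val : ℤ)) % q < q := Int.emod_lt_of_pos _ (by exact_mod_cast hq)
        have h2 : ((⌊u i⌋ : ℝ) + 1) ≤ ((⌊u i⌋ - (⌊u i⌋ - (t i).val) % q : ℤ) : ℝ) + q := by
          exact_mod_cast (by omega : ⌊u i⌋ + 1 ≤ ⌊u i⌋ - (⌊u i⌋ - ((t i).val : ℤ)) % q + q)
        exact lt_of_lt_of_le (Int.lt_floor_add_one _) h2
    choose z hz using hex
    refine ⟨z, ⟨?_, fun i => (hz i).2⟩, funext fun i => (hz i).1⟩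
    have : (fun i => (z i : ZMod q)) = t := funext fun i => (hz i).1
    rw [this]
    exact ht

theorem Bx_ncard {q : ℕ} (hq : 0 < q) (T : Set (ι → ZMod q)) (u : ι → ℝ) :
    (Bx q T u).ncard = T.ncard := (Bx_bijOn hq T u).ncard_eq

theorem Bx_finite {q : ℕ} (hq : 0 < q) (T : Set (ι → ZMod q)) (u : ι → ℝ) :
    (Bx q T u).Finite := by
  have : NeZero q := ⟨hq.ne'⟩
  exact (Bx_bijOn hq T u).finite_iff_finite.mpr (Set.toFinite T)

/-- the lattice points in question -/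
def Zs (q : ℕ) (T : Set (ι → ZMod q)) (D : Set (ι → ℝ)) (Y : ι → ℝ) : Set (ι → ℤ) :=
  {z | (fun i => (z i : ZMod q)) ∈ T ∧ (fun i => (z i : ℝ) / Y i) ∈ D}

/-- the cubes -/
def Qz (q : ℕ) (Y : ι → ℝ) (z : ι → ℤ) : Set (ι → ℝ) :=
  Set.pi Set.univ fun i => Set.Ico ((z i : ℝ) / Y i) ((z i + q : ℝ) / Y i)

theorem mem_Qz {q : ℕ} {Y : ι → ℝ} (hY : ∀ i, 0 < Y i) {z : ι → ℤ} {x : ι → ℝ} :
    x ∈ Qz q Y z ↔ ∀ i, (z i : ℝ) ≤ Y i * x i ∧ Y i * x i < z i + q := by
  unfold Qz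
  rw [Set.mem_univ_pi]
  apply forall_congr'
  intro i
  rw [Set.mem_Ico, div_le_iff₀' (hY i), lt_div_iff₀' (hY i)]

theorem vol_Qz {q : ℕ} {Y : ι → ℝ} (hY : ∀ i, 0 < Y i) (z : ι → ℤ) :
    volume.real (Qz q Y z) = ∏ i, ((q : ℝ) / Y i) := by
  unfold Qz
  rw [Measure.real, Real.volume_pi_Ico, ENNReal.toReal_prod]
  have h : ∀ i, (ENNReal.ofReal (((z i : ℝ) + q) / Y i - (z i : ℝ) / Y i)).toReal =
      (q : ℝ) / Y i := by
    intro i
    have := hY i
    rw [← sub_div, add_sub_cancel_left, ENNReal.toReal_ofReal (by positivity)]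
  rw [Finset.prod_congr rfl fun i _ => h i]

theorem meas_Qz (q : ℕ) (Y : ι → ℝ) (z : ι → ℤ) : MeasurableSet (Qz q Y z) :=
  MeasurableSet.univ_pi fun _ => measurableSet_Ico

theorem Zs_finite {q : ℕ} {T : Set (ι → ZMod q)} {D : Set (ι → ℝ)} (hD : Bornology.IsBounded D)
    {Y : ι → ℝ} (hY : ∀ i, 0 < Y i) : (Zs q T D Y).Finite := by
  classical
  obtain ⟨R, hR⟩ := hD.subset_closedBall 0
  refine Set.Finite.subset (Set.finite_Icc (fun i : ι => -⌈|R| * Y i⌉) (fun i => ⌈|R| * Y i⌉)) ?_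
  rintro z ⟨-, hz⟩
  have h1 := hR hz
  rw [mem_closedBall_zero_iff] at h1
  have h2 : ∀ i, |(z i : ℝ)| ≤ |R| * Y i := by
    intro i
    have h3 := (norm_le_pi_norm (fun i => (z i : ℝ) / Y i) i).trans (h1.trans (le_abs_self R))
    rw [Real.norm_eq_abs, abs_div, abs_of_pos (hY i), div_le_iff₀ (hY i)] at h3
    exact h3
  rw [Set.mem_Icc]
  constructor
  · intro i
    have h3 := (abs_le.mp (h2 i)).1
    have h4 : -(⌈|R| * Y i⌉ : ℝ) ≤ z i := by
      have := Int.le_ceil (|R| * Y i)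
      linarith
    show -⌈|R| * Y i⌉ ≤ z i
    exact_mod_cast h4
  · intro i
    have h3 := (abs_le.mp (h2 i)).2
    have h4 : (z i : ℝ) ≤ (⌈|R| * Y i⌉ : ℝ) := h3.trans (Int.le_ceil _)
    show z i ≤ ⌈|R| * Y i⌉
    exact_mod_cast h4

open Classical in
/-- the number of cubes containing a point -/
noncomputable def ff (q : ℕ) (T : Set (ι → ZMod q)) (D : Set (ι → ℝ)) (Y x : ι → ℝ) : ℝ :=
  if h : (Zs q T D Y).Finite then ∑ z ∈ h.toFinset, (Qz q Y z).indicator (fun _ => (1 : ℝ)) x else 0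

theorem ff_eq {q : ℕ} {T : Set (ι → ZMod q)} {D : Set (ι → ℝ)} {Y : ι → ℝ}
    (h : (Zs q T D Y).Finite) (x : ι → ℝ) :
    ff q T D Y x = ∑ z ∈ h.toFinset, (Qz q Y z).indicator (fun _ => (1 : ℝ)) x := by
  unfold ff
  rw [dif_pos h]

theorem ff_ncard {q : ℕ} {T : Set (ι → ZMod q)} {D : Set (ι → ℝ)} {Y : ι → ℝ}
    (h : (Zs q T D Y).Finite) (x : ι → ℝ) :
    ff q T D Y x = ({z ∈ Zs q T D Y | x ∈ Qz q Y z}.ncard : ℝ) := by
  classical
  rw [ff_eq h]
  have h1 : ∀ z ∈ h.toFinset, (Qz q Y z).indicator (fun _ => (1 : ℝ)) x =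
      if x ∈ Qz q Y z then 1 else 0 := by
    intro z _
    rw [Set.indicator_apply]
  rw [Finset.sum_congr rfl h1, Finset.sum_boole, ← Set.ncard_coe_finset]
  congr 2
  ext z
  simp

theorem integral_ff {q : ℕ} {T : Set (ι → ZMod q)} {D : Set (ι → ℝ)} {Y : ι → ℝ}
    (hY : ∀ i, 0 < Y i) (h : (Zs q T D Y).Finite) :
    ∫ x, ff q T D Y x = (Zs q T D Y).ncard * ∏ i, ((q : ℝ) / Y i) := by
  have h1 : ∀ x, ff q T D Y x = ∑ z ∈ h.toFinset, (Qz q Y z).indicator (fun _ => (1 : ℝ)) x :=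
    fun x => ff_eq h x
  rw [integral_congr_ae (Eventually.of_forall h1), integral_finsetSum]
  · have h2 : ∀ z ∈ h.toFinset, ∫ x, (Qz q Y z).indicator (fun _ => (1 : ℝ)) x =
        ∏ i, ((q : ℝ) / Y i) := by
      intro z _
      rw [integral_indicator (meas_Qz q Y z), setIntegral_const, vol_Qz hY, smul_eq_mul, mul_one]
    rw [Finset.sum_congr rfl h2, Finset.sum_const, nsmul_eq_mul, Set.ncard_eq_toFinset_card _ h]
  · intro z _
    rw [integrable_indicator_iff (meas_Qz q Y z)]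
    have h3 : volume (Qz q Y z) ≠ ⊤ := by
      unfold Qz
      rw [Real.volume_pi_Ico]
      exact ENNReal.prod_ne_top fun i _ => ENNReal.ofReal_ne_top
    have h4 : ‖(1 : ℝ)‖ₑ ≠ ⊤ := by simp
    exact integrableOn_const h3 h4

theorem meas_ff {q : ℕ} {T : Set (ι → ZMod q)} {D : Set (ι → ℝ)} {Y : ι → ℝ}
    (h : (Zs q T D Y).Finite) : Measurable (ff q T D Y) := by
  have h1 : ff q T D Y = fun x => ∑ z ∈ h.toFinset, (Qz q Y z).indicator (fun _ => (1 : ℝ)) x :=
    funext fun x => ff_eq h x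
  rw [h1]
  exact Finset.measurable_sum _ fun z _ => measurable_const.indicator (meas_Qz q Y z)

/-- the points of the cubes are near -/
theorem near {q : ℕ} {Y : ι → ℝ} {m : ℝ} (hm : 0 < m) (hY : ∀ i, m ≤ Y i) {z : ι → ℤ} {x : ι → ℝ}
    (h : x ∈ Qz q Y z) (i : ι) : |x i - (z i : ℝ) / Y i| ≤ (q : ℝ) / m := by
  have hY' : ∀ i, 0 < Y i := fun i => hm.trans_le (hY i)
  obtain ⟨h1, h2⟩ := (mem_Qz hY').mp h i
  have hYi := hY' i
  have e : x i - (z i : ℝ) / Y i = (Y i * x i - z i) / Y i := by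
    field_simp
  have h3 : |x i - (z i : ℝ) / Y i| ≤ (q : ℝ) / Y i := by
    rw [e, abs_div, abs_of_pos hYi]
    apply div_le_div_of_nonneg_right _ hYi.le
    rw [abs_le]
    constructor
    · have : (0 : ℝ) ≤ q := Nat.cast_nonneg q
      linarith
    · linarith
  exact h3.trans (div_le_div_of_nonneg_left (Nat.cast_nonneg q) hm (hY i))

theorem ff_le {q : ℕ} (hq : 0 < q) {T : Set (ι → ZMod q)} {D : Set (ι → ℝ)} {Y : ι → ℝ}
    (hY : ∀ i, 0 < Y i) (h : (Zs q T D Y).Finite) (x : ι → ℝ) : ff q T D Y x ≤ T.ncard := by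
  rw [ff_ncard h, ← Bx_ncard hq T (fun i => Y i * x i)]
  have : {z ∈ Zs q T D Y | x ∈ Qz q Y z} ⊆ Bx q T (fun i => Y i * x i) := by
    rintro z ⟨hz, hx⟩
    exact ⟨hz.1, (mem_Qz hY).mp hx⟩
  exact_mod_cast Set.ncard_le_ncard this (Bx_finite hq T _)

theorem pos_of {Y : ℕ → ι → ℝ} (hY : ∀ (k : ℕ) i, (k : ℝ) + 1 ≤ Y k i) (k : ℕ) (i : ι) : 0 < Y k i :=
  lt_of_lt_of_le (by positivity) (hY k i)

theorem lim_ff {q : ℕ} (hq : 0 < q) {T : Set (ι → ZMod q)} {D : Set (ι → ℝ)}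
    (hD : Bornology.IsBounded D) {Y : ℕ → ι → ℝ} (hY : ∀ (k : ℕ) i, (k : ℝ) + 1 ≤ Y k i) {x : ι → ℝ}
    (hx : x ∉ frontier D) :
    ∀ᶠ k : ℕ in atTop, ff q T D (Y k) x = T.ncard * D.indicator (fun _ => (1 : ℝ)) x := by
  have hlim : Tendsto (fun k : ℕ => (q : ℝ) / ((k : ℝ) + 1)) atTop (𝓝 0) :=
    tendsto_const_nhds.div_atTop
      (tendsto_atTop_add_const_right atTop (1 : ℝ) tendsto_natCast_atTop_atTop)
  rcases em (x ∈ closure D) with hc | hc
  · have hi : x ∈ interior D := by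
      by_contra hcon
      exact hx ⟨hc, hcon⟩
    obtain ⟨δ, hδ, hball⟩ := Metric.isOpen_iff.mp isOpen_interior x hi
    filter_upwards [hlim.eventually (gt_mem_nhds hδ)] with k h1
    rw [ff_ncard (Zs_finite hD (pos_of hY k)), Set.indicator_of_mem (interior_subset hi), mul_one,
      ← Bx_ncard hq T (fun i => Y k i * x i)]
    congr 2
    ext z
    constructor
    · rintro ⟨hz, hxz⟩
      exact ⟨hz.1, (mem_Qz (pos_of hY k)).mp hxz⟩
    · rintro ⟨hz, hxz⟩
      have hxz' : x ∈ Qz q (Y k) z := (mem_Qz (pos_of hY k)).mpr hxz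
      refine ⟨⟨hz, ?_⟩, hxz'⟩
      apply interior_subset
      apply hball
      rw [Metric.mem_ball, dist_comm, dist_pi_lt_iff hδ]
      intro i
      rw [Real.dist_eq]
      exact lt_of_le_of_lt (near (by positivity) (hY k) hxz' i) h1
  · have hi : x ∈ (closure D)ᶜ := hc
    obtain ⟨δ, hδ, hball⟩ := Metric.isOpen_iff.mp isClosed_closure.isOpen_compl x hi
    filter_upwards [hlim.eventually (gt_mem_nhds hδ)] with k h1
    rw [ff_ncard (Zs_finite hD (pos_of hY k)),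
      Set.indicator_of_notMem (fun h => hc (subset_closure h)), mul_zero]
    have : {z ∈ Zs q T D (Y k) | x ∈ Qz q (Y k) z} = ∅ := by
      rw [Set.eq_empty_iff_forall_notMem]
      rintro z ⟨hz, hxz⟩
      have h2 : (fun i => (z i : ℝ) / Y k i) ∈ (closure D)ᶜ := by
        apply hball
        rw [Metric.mem_ball, dist_comm, dist_pi_lt_iff hδ]
        intro i
        rw [Real.dist_eq]
        exact lt_of_le_of_lt (near (by positivity) (hY k) hxz i) h1
      exact h2 (subset_closure hz.2)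
    rw [this, Set.ncard_empty, Nat.cast_zero]

/-- lattice points in dilated regions and residue classes, along a sequence -/
theorem lpcs (D : Set (ι → ℝ)) (hD : Bornology.IsBounded D) (hm : MeasurableSet D)
    (hf : volume (frontier D) = 0) (q : ℕ) (hq : 0 < q) (T : Set (ι → ZMod q))
    {Y : ℕ → ι → ℝ} (hY : ∀ (k : ℕ) i, (k : ℝ) + 1 ≤ Y k i) :
    Tendsto (fun k : ℕ => ((Zs q T D (Y k)).ncard : ℝ) / ∏ i, Y k i) atTop
      (𝓝 (volume.real D * T.ncard / (q : ℝ) ^ Fintype.card ι)) := by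
  obtain ⟨R, hR⟩ := hD.subset_closedBall 0
  have key : Tendsto (fun k : ℕ => ∫ x, ff q T D (Y k) x) atTop
      (𝓝 (∫ x, T.ncard * D.indicator (fun _ => (1 : ℝ)) x)) := by
    apply tendsto_integral_filter_of_dominated_convergence
      (fun x => T.ncard * (Metric.closedBall (0 : ι → ℝ) (R + q)).indicator (fun _ => (1 : ℝ)) x)
    · exact Eventually.of_forall fun k =>
        (meas_ff (Zs_finite hD (pos_of hY k))).aestronglyMeasurable
    · refine Eventually.of_forall fun k => Eventually.of_forall fun x => ?_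
      have hfin : (Zs q T D (Y k)).Finite := Zs_finite hD (pos_of hY k)
      have h0 : 0 ≤ ff q T D (Y k) x := by rw [ff_ncard hfin]; positivity
      rw [Real.norm_of_nonneg h0]
      by_cases hx : x ∈ Metric.closedBall (0 : ι → ℝ) (R + q)
      · rw [Set.indicator_of_mem hx, mul_one]
        exact ff_le hq (pos_of hY k) hfin x
      · rw [Set.indicator_of_notMem hx, mul_zero, ff_ncard hfin]
        have : {z ∈ Zs q T D (Y k) | x ∈ Qz q (Y k) z} = ∅ := by
          rw [Set.eq_empty_iff_forall_notMem]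
          rintro z ⟨hz, hxz⟩
          apply hx
          have h1 := hR hz.2
          rw [mem_closedBall_zero_iff] at h1 ⊢
          have hY1 : (1 : ℝ) ≤ (k : ℝ) + 1 := by
            have : (0 : ℝ) ≤ k := Nat.cast_nonneg k
            linarith
          have h2 : ‖x - (fun i => (z i : ℝ) / Y k i)‖ ≤ q := by
            rw [pi_norm_le_iff_of_nonneg (Nat.cast_nonneg q)]
            intro i
            rw [Pi.sub_apply, Real.norm_eq_abs]
            refine (near (by positivity) (hY k) hxz i).trans ?_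
            exact div_le_self (Nat.cast_nonneg q) hY1
          have h3 : x = (x - (fun i => (z i : ℝ) / Y k i)) + (fun i => (z i : ℝ) / Y k i) := by abel
          rw [h3]
          refine (norm_add_le _ _).trans ?_
          linarith
        rw [this, Set.ncard_empty, Nat.cast_zero]
    · apply Integrable.const_mul
      rw [integrable_indicator_iff Metric.isClosed_closedBall.measurableSet]
      have h4 : ‖(1 : ℝ)‖ₑ ≠ ⊤ := by simp
      exact integrableOn_const measure_closedBall_lt_top.ne h4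
    · have hae : ∀ᵐ x : ι → ℝ, x ∉ frontier D := by
        rw [ae_iff]
        simpa using hf
      filter_upwards [hae] with x hx
      exact tendsto_const_nhds.congr' ((lim_ff hq hD hY hx).mono fun k hk => hk.symm)
  have hlim : ∫ x, T.ncard * D.indicator (fun _ => (1 : ℝ)) x = volume.real D * T.ncard := by
    rw [integral_const_mul, integral_indicator hm, setIntegral_const, smul_eq_mul, mul_one,
      mul_comm]
  rw [hlim] at key
  have hq' : (0 : ℝ) < q := by exact_mod_cast hq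
  refine (key.div_const ((q : ℝ) ^ Fintype.card ι)).congr' ?_
  refine Eventually.of_forall fun k => ?_
  have hY' : 0 < ∏ i, Y k i := Finset.prod_pos fun i _ => pos_of hY k i
  show (∫ x, ff q T D (Y k) x) / (q : ℝ) ^ Fintype.card ι = _
  rw [integral_ff (pos_of hY k) (Zs_finite hD (pos_of hY k)), Finset.prod_div_distrib,
    Finset.prod_const, Finset.card_univ]
  field_simp

/-- **lattice points in regions with different scales and residue classes**, uniform in the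
scales: the statement `S_LPC` -/
theorem lpc : ∀ (ι : Type) [Fintype ι] (D : Set (ι → ℝ)), Bornology.IsBounded D →
  MeasurableSet D → volume (frontier D) = 0 → ∀ q : ℕ, 0 < q → ∀ T : Set (ι → ZMod q),
  ∀ η : ℝ, 0 < η → ∃ L : ℝ, 0 < L ∧ ∀ Y : ι → ℝ, (∀ i, L ≤ Y i) →
    |({z : ι → ℤ | (fun i => (z i : ZMod q)) ∈ T ∧ (fun i => (z i : ℝ) / Y i) ∈ D}.ncard : ℝ) /
      ∏ i, Y i - volume.real D * T.ncard / (q : ℝ) ^ Fintype.card ι| ≤ η := by
  intro ι _ D hD hm hf q hq T η hη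
  by_contra hcon
  push Not at hcon
  have hex : ∀ k : ℕ, ∃ Y : ι → ℝ, (∀ i, (k : ℝ) + 1 ≤ Y i) ∧
      η < |((Zs q T D Y).ncard : ℝ) / ∏ i, Y i -
        volume.real D * T.ncard / (q : ℝ) ^ Fintype.card ι| := fun k =>
    hcon ((k : ℝ) + 1) (by positivity)
  choose Y hY1 hY2 using hex
  have h := lpcs D hD hm hf q hq T hY1
  have h1 := (Metric.tendsto_nhds.mp h) η hη
  obtain ⟨k, hk⟩ := h1.exists
  rw [Real.dist_eq] at hk
  exact absurd hk (not_lt.mpr (hY2 k).le)

end Pool.Agent.Y592.KE.LPC
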